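import Mathlib
import Pool.Agent.Work.MP_56ddc0_co.H55Later

set_option autoImplicit false

namespace Pool.Agent.Results.MP_56ddc0_co.LaterRatios

open Filter Topology

/-- Let `t n` be the number of fixed `n`-ominoes and `τ n = t (n+1) / t n`. There is a constant `c`
such that for all `n ≥ 1` and all `m ≥ c n^2` the ratio `τ m` exceeds the geometric mean
`t (n+1) ^ (1/n)` of `τ 1, …, τ n`. -/
theorem result :
    ∀ t : ℕ → ℕ,
      (∀ n : ℕ, t n = Nat.card {S : Finset (ℤ × ℤ) //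
          S.card = n ∧ ((0 : ℤ), (0 : ℤ)) ∈ S ∧
          (∀ p ∈ S, 0 < p.2 ∨ (p.2 = 0 ∧ 0 ≤ p.1)) ∧
          ((SimpleGraph.fromRel (fun p q : ℤ × ℤ => |p.1 - q.1| + |p.2 - q.2| = 1)).induce
              (S : Set (ℤ × ℤ))).Connected}) →
      ∃ c : ℝ, ∀ n m : ℕ, 1 ≤ n → c * (n : ℝ) ^ 2 ≤ m →
        (t (n + 1) : ℝ) < ((t (m + 1) : ℝ) / (t m : ℝ)) ^ n := by
  intro t ht
  have hT : t = Pool.Agent.Work.MP_56ddc0_co.Anim.tn :=
    funext (fun n => by rw [ht n, Pool.Agent.Work.MP_56ddc0_co.Anim.tn_eq])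
  subst hT
  obtain ⟨c, hc, h⟩ := Pool.Agent.Work.MP_56ddc0_co.Anim.tn_later
  refine ⟨c, fun n m hn hm => ?_⟩
  have h1 := h n m hn hm
  have hn0 : (1 : ℝ) ≤ n := by exact_mod_cast hn
  have hm0 : (0 : ℝ) < m := lt_of_lt_of_le (by positivity) hm
  have hm1 : 1 ≤ m := by exact_mod_cast hm0
  have hb : (0 : ℝ) < Pool.Agent.Work.MP_56ddc0_co.Anim.tn m := by
    exact_mod_cast Pool.Agent.Work.MP_56ddc0_co.Anim.tn_pos m hm1
  rw [div_pow, lt_div_iff₀ (by positivity)]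
  exact_mod_cast h1

end Pool.Agent.Results.MP_56ddc0_co.LaterRatios
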