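import Mathlib
import Pool.Agent.Work.MP_56ddc0_co.H55Main2

set_option autoImplicit false

namespace Pool.Agent.Results.MP_56ddc0_co.RatioRate

open Filter Topology

/-- Let `t n` be the number of fixed `n`-ominoes. The ratios `t (n+1) / t n` converge to a limit
with error at most `C (1 + log n) / √n`. -/
theorem result :
    ∀ t : ℕ → ℕ,
      (∀ n : ℕ, t n = Nat.card {S : Finset (ℤ × ℤ) //
          S.card = n ∧ ((0 : ℤ), (0 : ℤ)) ∈ S ∧
          (∀ p ∈ S, 0 < p.2 ∨ (p.2 = 0 ∧ 0 ≤ p.1)) ∧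
          ((SimpleGraph.fromRel (fun p q : ℤ × ℤ => |p.1 - q.1| + |p.2 - q.2| = 1)).induce
              (S : Set (ℤ × ℤ))).Connected}) →
      ∃ lam C : ℝ, ∀ n : ℕ, 1 ≤ n →
        |(t (n + 1) : ℝ) / (t n : ℝ) - lam| ≤ C * (1 + Real.log n) / Real.sqrt n := by
  intro t ht
  have hT : t = Pool.Agent.Work.MP_56ddc0_co.Anim.tn :=
    funext (fun n => by rw [ht n, Pool.Agent.Work.MP_56ddc0_co.Anim.tn_eq])
  subst hT
  obtain ⟨lam, C, _, h⟩ := Pool.Agent.Work.MP_56ddc0_co.Anim.tn_rate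
  exact ⟨lam, C, h⟩

end Pool.Agent.Results.MP_56ddc0_co.RatioRate
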