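import Mathlib
import Pool.Agent.Work.MP_56ddc0_co.H55RightMin

set_option autoImplicit false

namespace Pool.Agent.Results.MP_56ddc0_co.RightMinima

open Filter Topology

/-- Let `t n` be the number of fixed `n`-ominoes and `τ n = t (n+1) / t n`. For `0 ≤ ε < 1/2` and
every `κ > 12 / (1 - 2ε)`, all large intervals `[N, N^κ]` contain an `n` such that
`τ m > τ n * exp (ε/n - ε/m)` for every `m > n`: all later ratios are strictly larger, with an
explicit margin. -/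
theorem result :
    ∀ t : ℕ → ℕ,
      (∀ n : ℕ, t n = Nat.card {S : Finset (ℤ × ℤ) //
          S.card = n ∧ ((0 : ℤ), (0 : ℤ)) ∈ S ∧
          (∀ p ∈ S, 0 < p.2 ∨ (p.2 = 0 ∧ 0 ≤ p.1)) ∧
          ((SimpleGraph.fromRel (fun p q : ℤ × ℤ => |p.1 - q.1| + |p.2 - q.2| = 1)).induce
              (S : Set (ℤ × ℤ))).Connected}) →
      ∀ ε : ℝ, 0 ≤ ε → ε < 1 / 2 → ∀ κ : ℝ, 12 / (1 - 2 * ε) < κ →
        ∀ᶠ N : ℕ in atTop, ∃ n : ℕ, N ≤ n ∧ (n : ℝ) ≤ (N : ℝ) ^ κ ∧ ∀ m : ℕ, n < m →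
          (t (n + 1) : ℝ) / (t n : ℝ) * Real.exp (ε / n - ε / m) <
            (t (m + 1) : ℝ) / (t m : ℝ) := by
  intro t ht
  have hT : t = Pool.Agent.Work.MP_56ddc0_co.Anim.tn :=
    funext (fun n => by rw [ht n, Pool.Agent.Work.MP_56ddc0_co.Anim.tn_eq])
  subst hT
  intro ε h0 h1 κ hκ
  exact Pool.Agent.Work.MP_56ddc0_co.Anim.tn_right_min_interval ε h0 h1 κ hκ

end Pool.Agent.Results.MP_56ddc0_co.RightMinima
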